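import Pool.Agent.H.MP_d2274e_an.C
import Pool.Agent.H.MP_d2274e_an.F

set_option autoImplicit false

namespace Pool.Agent.Results.MP_d2274e_an.Answer

open Filter Topology Set

abbrev E (n : ℕ) := EuclideanSpace ℝ (Fin n)

def InM (ω : ℝ → ℝ) : Prop :=
  (∀ t, 0 ≤ t → 0 ≤ ω t) ∧ MonotoneOn ω (Ici 0) ∧ Tendsto ω (𝓝[>] 0) (𝓝 0)

def SemiConvex {n : ℕ} (ω : ℝ → ℝ) (G : Set (E n)) (f : E n → ℝ) : Prop :=
  ContinuousOn f G ∧ ∀ x ∈ G, ∀ y ∈ G, ∀ l ∈ Icc (0:ℝ) 1,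
    f (l • x + (1 - l) • y) ≤ l * f x + (1 - l) * f y + l * (1 - l) * ‖x - y‖ * ω ‖x - y‖

def C1 {n : ℕ} (ω : ℝ → ℝ) (G : Set (E n)) (f : E n → ℝ) : Prop :=
  ∃ K > 0, (∀ x ∈ G, DifferentiableAt ℝ f x) ∧
    ∀ x ∈ G, ∀ y ∈ G, ‖fderiv ℝ f x - fderiv ℝ f y‖ ≤ K * ω ‖x - y‖

def Admissible {n : ℕ} (G : Set (E n)) : Prop :=
  ¬ Bornology.IsBounded G ∧ IsOpen G ∧ Convex ℝ G ∧
    ¬ ∃ (a : E n) (C : Set (E n)), Convex ℝ C ∧ (∀ x ∈ C, ∀ l : ℝ, 0 < l → l • x ∈ C) ∧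
      (interior C).Nonempty ∧ ∀ x ∈ C, a + x ∈ G

theorem result (n : ℕ) (hn : 2 ≤ n) :
    (∃ (G : Set (E n)) (ω : ℝ → ℝ), Admissible G ∧ InM ω ∧ ConcaveOn ℝ (Ici 0) ω ∧
      (∃ c > 0, ∀ᶠ t in 𝓝[>] (0:ℝ), c ≤ ω t / t) ∧ Tendsto (fun t => ω t / t) atTop (𝓝 0) ∧
      ∀ f : E n → ℝ, SemiConvex ω G f → SemiConvex ω G (fun x => -f x) → C1 ω G f) ∧
    (∀ (G : Set (E n)) (α : ℝ), Admissible G → 0 < α → α < 1 →
      ∃ f : E n → ℝ, SemiConvex (fun t => t ^ α) G f ∧ SemiConvex (fun t => t ^ α) G (fun x => -f x) ∧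
        ¬ C1 (fun t => t ^ α) G f) := by
  constructor
  · let e : E n := EuclideanSpace.single ⟨0, by omega⟩ 1
    let e' : E n := EuclideanSpace.single ⟨1, by omega⟩ 1
    have he : ‖e‖ = 1 := by simp [e]
    have h1 : H.MP_d2274e_an.PP e e' ≠ 0 := by
      have : inner ℝ e e' = (0:ℝ) := by simp [e, e', EuclideanSpace.inner_single_left]
      rw [H.MP_d2274e_an.PP_apply, this, zero_smul, sub_zero, ← norm_ne_zero_iff]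
      simp [e']
    refine ⟨H.MP_d2274e_an.Par (H.MP_d2274e_an.PP e) (H.MP_d2274e_an.hh e), H.MP_d2274e_an.om,
      ⟨H.MP_d2274e_an.par_unb (H.MP_d2274e_an.split he), H.MP_d2274e_an.par_open _ _,
        H.MP_d2274e_an.par_convex,
        fun ⟨a, C, _, c2, c3, c4⟩ => H.MP_d2274e_an.par_free h1 a C c2 c3 c4⟩,
      ⟨H.MP_d2274e_an.om_nn, fun s hs t _ h => H.MP_d2274e_an.om_mono s t hs h,
        H.MP_d2274e_an.om_lim.mono_left nhdsWithin_le_nhds⟩, H.MP_d2274e_an.om_concave,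
      ⟨1 / 3, by norm_num, H.MP_d2274e_an.om_zero⟩, H.MP_d2274e_an.om_top, fun f h1 h2 =>
      ⟨4000, by norm_num, H.MP_d2274e_an.neg_main he fun x hx y hy l hl => ?_⟩⟩
    have a1 := h1.2 x hx y hy l hl
    have a2 := h2.2 x hx y hy l hl
    rw [abs_le]
    constructor <;> linarith
  · rintro G α ⟨g1, g2, g3, g4⟩ a0 a1
    obtain ⟨f, fc, h1, h2⟩ := H.MP_d2274e_an.pos_main g2 g3 g1
      (fun a C c1 c2 c3 c4 => g4 ⟨a, C, c1, c2, c3, c4⟩) a0 a1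
    refine ⟨f, ⟨fc.continuousOn, fun x hx y hy l hl => ?_⟩,
      ⟨fc.neg.continuousOn, fun x hx y hy l hl => ?_⟩, fun ⟨K, _, hK⟩ => h2 K hK⟩
    · linarith [(abs_le.1 (h1 x hx y hy l hl)).2]
    · linarith [(abs_le.1 (h1 x hx y hy l hl)).1]

end Pool.Agent.Results.MP_d2274e_an.Answer
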